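import Mathlib
import Pool.Agent.H331Z.Trace.Defs
import Pool.Agent.H331Z.Trace.Main

set_option autoImplicit false

namespace Pool.Agent.Results.MP_301441_lc.Classification

open Pool.Agent.H331Z.Trace

/-- For every finite alphabet `A = Fin k` and every irreflexive symmetric independence relation
`I`, the problem `(DP, ab)` for the trace monoid `M(A, I)` is decidable exactly when any two
distinct letters commute, that is, exactly when `M(A, I)` is free commutative. -/
theorem result (k : ℕ) (I : Fin k → Fin k → Prop) (_hirr : ∀ a, ¬ I a a)
    (hsymm : ∀ a b, I a b → I b a) :
    ComputablePred (Solvable I) ↔ ∀ a b, a ≠ b → I a b :=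
  classification I hsymm

end Pool.Agent.Results.MP_301441_lc.Classification
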